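import Mathlib
import Pool.Agent.helper56.SD.Main

/-!
# Every orientation of a path in oriented graphs of large minimum semidegree
-/

namespace Pool.Agent.Results.MP_b70133_co.AllOrientations

open Pool.Agent.SD

/-- **All orientations of the path with `k` edges.** For every `ε > 0` there are `c > 0` and `k₀` such that for
all `k ≥ k₀`: let `D` be a finite oriented graph all of whose out-degrees and in-degrees are at least
`(2/3 + ε) k`, and suppose that every vertex lies in at most `exp (c k)` different sets of the form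
(out-neighbourhood of a vertex) or (in-neighbourhood of a vertex), which is the case if all total degrees of `D`
are at most `exp (c k)`, in particular if `D` has at most `exp (c k)` vertices. Then for every vertex `v₀` and
every pattern `s` of `k` directions, `D` contains the oriented path with pattern `s` starting at `v₀`. -/
theorem result : ∀ ε : ℝ, 0 < ε → ∃ c : ℝ, 0 < c ∧ ∃ k₀ : ℕ, ∀ k : ℕ, k₀ ≤ k →
    ∀ (V : Type*) [Finite V] (D : V → V → Prop), (∀ u v, D u v → ¬ D v u) →
    (∀ v, (2 / 3 + ε) * (k : ℝ) ≤ ({w | D v w}.ncard : ℝ)) →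
    (∀ v, (2 / 3 + ε) * (k : ℝ) ≤ ({w | D w v}.ncard : ℝ)) →
    (∀ v, ({A : Set V | v ∈ A ∧ ∃ w, A = {u | D w u} ∨ A = {u | D u w}}.ncard : ℝ) ≤ Real.exp (c * k)) →
    ∀ (s : Fin k → Bool) (v₀ : V), ∃ f : Fin (k + 1) → V, f 0 = v₀ ∧ Function.Injective f ∧
      ∀ i : Fin k, if s i then D (f i.castSucc) (f i.succ) else D (f i.succ) (f i.castSucc) := by
  intro ε₀ hε₀
  set ε : ℝ := min ε₀ (1 / 3) with hε
  have hεpos : 0 < ε := lt_min hε₀ (by norm_num)
  obtain ⟨c, hc, k₀, h⟩ := family ε hεpos (min_le_right _ _)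
  refine ⟨c, hc, k₀, ?_⟩
  intro k hk V hV D hD hout hin hfam s v₀
  classical
  have : Fintype V := Fintype.ofFinite V
  have hk0 : (0 : ℝ) ≤ k := Nat.cast_nonneg k
  set d : ℕ := ⌈(2 / 3 + ε) * (k : ℝ)⌉₊ with hd
  have hle : (2 / 3 + ε) * (k : ℝ) ≤ (2 / 3 + ε₀) * (k : ℝ) := by
    apply mul_le_mul_of_nonneg_right _ hk0
    have := min_le_left ε₀ (1 / 3 : ℝ)
    linarith
  -- the family of all neighbourhoods
  set N : Bool → V → Finset V := fun σ v => Finset.univ.filter (fun w => st D σ v w) with hN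
  have hNcard : ∀ σ v, d ≤ (N σ v).card := by
    intro σ v
    rw [hd, Nat.ceil_le]
    refine hle.trans ?_
    cases σ
    · have h1 := hin v
      have h2 : ({w | D w v} : Set V) = ((N false v : Finset V) : Set V) := by
        ext w
        simp [hN, st]
      rw [h2, Set.ncard_coe_finset] at h1
      exact h1
    · have h1 := hout v
      have h2 : ({w | D v w} : Set V) = ((N true v : Finset V) : Set V) := by
        ext w
        simp [hN, st]
      rw [h2, Set.ncard_coe_finset] at h1
      exact h1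
  set 𝒩 : Finset (Finset V) := Finset.univ.image (fun p : Bool × V => N p.1 p.2) with h𝒩
  have hsub : ∀ B ∈ 𝒩, ∃ A ⊆ B, A.card = d := by
    intro B hB
    rw [h𝒩, Finset.mem_image] at hB
    obtain ⟨p, _, rfl⟩ := hB
    exact Finset.exists_subset_card_eq (hNcard p.1 p.2)
  choose! g hg1 hg2 using hsub
  set 𝒜 : Finset (Finset V) := 𝒩.image g with h𝒜
  have hA1 : ∀ A ∈ 𝒜, A.card = d := by
    intro A hA
    rw [h𝒜, Finset.mem_image] at hA
    obtain ⟨B, hB, rfl⟩ := hA
    exact hg2 B hB
  have hA2 : ∀ v, ((𝒜.filter (fun A => v ∈ A)).card : ℝ) ≤ Real.exp (c * k) := by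
    intro v
    refine le_trans ?_ (hfam v)
    have h1 : 𝒜.filter (fun A => v ∈ A) ⊆ (𝒩.filter (fun B => v ∈ B)).image g := by
      intro A hA
      rw [Finset.mem_filter, h𝒜, Finset.mem_image] at hA
      obtain ⟨⟨B, hB, rfl⟩, hv⟩ := hA
      exact Finset.mem_image.mpr ⟨B, Finset.mem_filter.mpr ⟨hB, hg1 B hB hv⟩, rfl⟩
    have h2 : (𝒜.filter (fun A => v ∈ A)).card ≤ (𝒩.filter (fun B => v ∈ B)).card :=
      (Finset.card_le_card h1).trans Finset.card_image_le
    have h3 : (𝒩.filter (fun B => v ∈ B)).card ≤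
        {A : Set V | v ∈ A ∧ ∃ w, A = {u | D w u} ∨ A = {u | D u w}}.ncard := by
      have h4 : (𝒩.filter (fun B => v ∈ B)).card =
          (((fun B : Finset V => (B : Set V)) '' ((𝒩.filter (fun B => v ∈ B) : Finset (Finset V)) :
            Set (Finset V)))).ncard := by
        rw [Set.ncard_image_of_injective _ Finset.coe_injective, Set.ncard_coe_finset]
      rw [h4]
      apply Set.ncard_le_ncard _ (Set.toFinite _)
      rintro _ ⟨B, hB, rfl⟩
      rw [Finset.mem_coe, Finset.mem_filter, h𝒩, Finset.mem_image] at hB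
      obtain ⟨⟨p, _, rfl⟩, hv⟩ := hB
      refine ⟨by simpa using hv, p.2, ?_⟩
      rcases p with ⟨σ, w⟩
      cases σ
      · right
        ext u
        simp [hN, st]
      · left
        ext u
        simp [hN, st]
    exact_mod_cast h2.trans h3
  have hA3 : ∀ (σ : Bool) (v : V), ∃ A ∈ 𝒜, ∀ w ∈ A, st D σ v w := by
    intro σ v
    have hmem : N σ v ∈ 𝒩 := Finset.mem_image.mpr ⟨(σ, v), Finset.mem_univ _, rfl⟩
    refine ⟨g (N σ v), Finset.mem_image_of_mem g hmem, ?_⟩
    intro w hw
    have := hg1 _ hmem hw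
    rw [hN] at this
    simpa using this
  obtain ⟨f, hf0, hinj, hst⟩ := h k hk V D hD 𝒜 hA1 hA2 hA3
    (fun i => if hi : i < k then s ⟨i, hi⟩ else true) v₀
  refine ⟨fun i => f i.val, by simpa using hf0, ?_, ?_⟩
  · intro i j hij
    exact Fin.ext (hinj (Set.mem_Iic.mpr (Nat.lt_succ_iff.mp i.isLt))
      (Set.mem_Iic.mpr (Nat.lt_succ_iff.mp j.isLt)) hij)
  · intro i
    have h1 := hst i.val i.isLt
    simp only [i.isLt, dif_pos, Fin.eta] at h1
    simp only [Fin.val_castSucc, Fin.val_succ]
    exact h1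

end Pool.Agent.Results.MP_b70133_co.AllOrientations
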